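import Pool.Agent.Helper62.DSH.StB

/-!
# Project DSH (MP_087a81_gt), module CUA: Poincare inequality on a convex set
-/

set_option autoImplicit false

open Set Filter Topology MeasureTheory
open Helper62.LH Helper62.DSH
open scoped ContDiff ENNReal

noncomputable section

namespace Pool.Agent.Helper18.DSH

/-- homothety -/
theorem cua_hom (n : ℕ) (D : Set (E n)) (hD : MeasurableSet D) (hc : Convex ℝ D)
    (H : E n → ℝ≥0∞) (hH : Measurable H) (s : ℝ) (hs : 1 / 2 ≤ s) (hs1 : s ≤ 1) (c : E n)
    (hcD : c ∈ D) :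
    ∫⁻ x in D, H (s • x + (1 - s) • c) ≤ 2 ^ n * ∫⁻ x in D, H x := by
  have hs0 : (0 : ℝ) < s := by linarith
  have hsne : s ≠ 0 := hs0.ne'
  have hI : Measurable (D.indicator H) := hH.indicator hD
  have h1 : ∫⁻ x in D, H (s • x + (1 - s) • c) ≤ ∫⁻ x, (D.indicator H) (s • x + (1 - s) • c) := by
    rw [← lintegral_indicator hD]
    apply lintegral_mono
    intro x
    by_cases hx : x ∈ D
    · have hm : s • x + (1 - s) • c ∈ D := hc hx hcD hs0.le (by linarith) (by ring)
      simp only [indicator_of_mem hx, indicator_of_mem hm]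
      exact le_rfl
    · simp only [indicator_of_notMem hx]
      exact bot_le
  have h2 : ∫⁻ x, (D.indicator H) (s • x + (1 - s) • c) =
      ∫⁻ z, (D.indicator H) (z + (1 - s) • c) ∂(Measure.map (fun x : E n => s • x) volume) := by
    exact (lintegral_map (f := fun z => (D.indicator H) (z + (1 - s) • c))
      (hI.comp (measurable_id.add_const _)) (measurable_const_smul s)).symm
  have h3 : Measure.map (fun x : E n => s • x) (volume : Measure (E n)) =
      ENNReal.ofReal |(s ^ n)⁻¹| • (volume : Measure (E n)) := by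
    have := Measure.map_addHaar_smul (volume : Measure (E n)) hsne
    rw [finrank_euclideanSpace_fin] at this
    exact this
  have h4 : ∫⁻ z, (D.indicator H) (z + (1 - s) • c) = ∫⁻ z in D, H z := by
    rw [lintegral_add_right_eq_self (D.indicator H) ((1 - s) • c), lintegral_indicator hD]
  have h5 : ENNReal.ofReal |(s ^ n)⁻¹| ≤ 2 ^ n := by
    have : |(s ^ n)⁻¹| ≤ 2 ^ n := by
      rw [abs_of_nonneg (by positivity), ← inv_pow]
      apply pow_le_pow_left₀ (by positivity)
      rw [inv_le_comm₀ hs0 (by norm_num)]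
      linarith
    calc ENNReal.ofReal |(s ^ n)⁻¹| ≤ ENNReal.ofReal (2 ^ n) := ENNReal.ofReal_le_ofReal this
      _ = 2 ^ n := by
        rw [ENNReal.ofReal_pow (by norm_num)]
        norm_num
  calc ∫⁻ x in D, H (s • x + (1 - s) • c) ≤ _ := h1
    _ = ENNReal.ofReal |(s ^ n)⁻¹| * ∫⁻ z in D, H z := by
      rw [h2, h3, lintegral_smul_measure, h4, smul_eq_mul]
    _ ≤ 2 ^ n * ∫⁻ z in D, H z := by gcongr

/-- Jensen for the square on the unit interval -/
theorem cua_sq (a : ℝ → ℝ) (ha : Continuous a) :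
    (∫ t in (0 : ℝ)..1, a t) ^ 2 ≤ ∫ t in (0 : ℝ)..1, a t ^ 2 := by
  set c := ∫ t in (0 : ℝ)..1, a t with hc
  have h0 : 0 ≤ ∫ t in (0 : ℝ)..1, (a t - c) ^ 2 :=
    intervalIntegral.integral_nonneg (by norm_num) (fun t _ => sq_nonneg _)
  have h1 : ∫ t in (0 : ℝ)..1, (a t - c) ^ 2 = (∫ t in (0 : ℝ)..1, a t ^ 2) - c ^ 2 := by
    have e : ∀ t, (a t - c) ^ 2 = (a t ^ 2 - (2 * c) * a t) + c ^ 2 := fun t => by ring
    simp only [e]
    rw [intervalIntegral.integral_add, intervalIntegral.integral_sub,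
      intervalIntegral.integral_const_mul, ← hc, intervalIntegral.integral_const]
    · simp only [sub_zero, one_smul]
      ring
    · exact (ha.pow 2).intervalIntegrable _ _
    · exact (continuous_const.mul ha).intervalIntegrable _ _
    · exact ((ha.pow 2).sub (continuous_const.mul ha)).intervalIntegrable _ _
    · exact continuous_const.intervalIntegrable _ _
  linarith

/-- the pointwise inequality -/
theorem cua_pt (n : ℕ) (d : ℝ) (v : E n → ℝ) (hv : ContDiff ℝ 1 v) (x y : E n)
    (hxy : ‖x - y‖ ≤ d) :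
    ENNReal.ofReal ((v x - v y) ^ 2) ≤ ENNReal.ofReal (d ^ 2) *
      ∫⁻ t in Ioc (0 : ℝ) 1, ENNReal.ofReal (‖fderiv ℝ v (t • x + (1 - t) • y)‖ ^ 2) := by
  have hf : Continuous (fderiv ℝ v) := hv.continuous_fderiv (by norm_num)
  have hl : ∀ t : ℝ, HasDerivAt (fun t : ℝ => t • x + (1 - t) • y) (x - y) t := by
    intro t
    have h1 : HasDerivAt (fun t : ℝ => t • x) ((1 : ℝ) • x) t := (hasDerivAt_id t).smul_const x
    have h2 : HasDerivAt (fun t : ℝ => (1 - t) • y) ((-1 : ℝ) • y) t :=
      ((hasDerivAt_id t).const_sub 1).smul_const y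
    have h3 := h1.add h2
    rw [one_smul, neg_smul, one_smul, ← sub_eq_add_neg] at h3
    exact h3
  have hlc : Continuous (fun t : ℝ => t • x + (1 - t) • y) := by fun_prop
  have hcomp : ∀ t : ℝ, HasDerivAt (fun t : ℝ => v (t • x + (1 - t) • y))
      (fderiv ℝ v (t • x + (1 - t) • y) (x - y)) t := by
    intro t
    exact ((hv.differentiable (by norm_num) (t • x + (1 - t) • y)).hasFDerivAt).comp_hasDerivAt t (hl t)
  have hac : Continuous (fun t : ℝ => fderiv ℝ v (t • x + (1 - t) • y) (x - y)) :=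
    (hf.comp hlc).clm_apply continuous_const
  have hFTC : ∫ t in (0 : ℝ)..1, fderiv ℝ v (t • x + (1 - t) • y) (x - y) = v x - v y := by
    rw [intervalIntegral.integral_eq_sub_of_hasDerivAt (fun t _ => hcomp t)
      (hac.intervalIntegrable _ _)]
    simp
  have hhc : Continuous (fun t : ℝ => ‖fderiv ℝ v (t • x + (1 - t) • y)‖ ^ 2) :=
    ((hf.comp hlc).norm).pow 2
  have h1 : (v x - v y) ^ 2 ≤ d ^ 2 * ∫ t in (0 : ℝ)..1, ‖fderiv ℝ v (t • x + (1 - t) • y)‖ ^ 2 := by
    rw [← hFTC]
    refine (cua_sq _ hac).trans ?_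
    rw [← intervalIntegral.integral_const_mul]
    apply intervalIntegral.integral_mono_on (by norm_num) ((hac.pow 2).intervalIntegrable _ _)
      ((continuous_const.mul hhc).intervalIntegrable _ _)
    intro t _
    have h2 : |fderiv ℝ v (t • x + (1 - t) • y) (x - y)| ≤
        ‖fderiv ℝ v (t • x + (1 - t) • y)‖ * ‖x - y‖ := by
      have := (fderiv ℝ v (t • x + (1 - t) • y)).le_opNorm (x - y)
      rwa [Real.norm_eq_abs] at this
    have h3 : ‖fderiv ℝ v (t • x + (1 - t) • y)‖ * ‖x - y‖ ≤
        ‖fderiv ℝ v (t • x + (1 - t) • y)‖ * d := mul_le_mul_of_nonneg_left hxy (norm_nonneg _)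
    have h4 := pow_le_pow_left₀ (abs_nonneg _) (h2.trans h3) 2
    rw [sq_abs] at h4
    calc (fderiv ℝ v (t • x + (1 - t) • y) (x - y)) ^ 2
        ≤ (‖fderiv ℝ v (t • x + (1 - t) • y)‖ * d) ^ 2 := h4
      _ = d ^ 2 * ‖fderiv ℝ v (t • x + (1 - t) • y)‖ ^ 2 := by ring
  calc ENNReal.ofReal ((v x - v y) ^ 2)
      ≤ ENNReal.ofReal (d ^ 2 * ∫ t in (0 : ℝ)..1, ‖fderiv ℝ v (t • x + (1 - t) • y)‖ ^ 2) :=
        ENNReal.ofReal_le_ofReal h1
    _ = ENNReal.ofReal (d ^ 2) *
        ENNReal.ofReal (∫ t in (0 : ℝ)..1, ‖fderiv ℝ v (t • x + (1 - t) • y)‖ ^ 2) :=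
        ENNReal.ofReal_mul (sq_nonneg d)
    _ = _ := by
        rw [intervalIntegral.integral_of_le (by norm_num),
          ofReal_integral_eq_lintegral_ofReal]
        · exact (hhc.integrableOn_Icc).mono_set Ioc_subset_Icc_self
        · exact Filter.Eventually.of_forall (fun t => by positivity)

theorem hCua : TCua := by
  intro n D hD hconv hbd d hd v hv
  have hf : Continuous (fderiv ℝ v) := hv.continuous_fderiv (by norm_num)
  have hvol : volume D ≠ (⊤ : ℝ≥0∞) := hbd.measure_lt_top.ne
  set H : E n → ℝ≥0∞ := fun x => ENNReal.ofReal (‖fderiv ℝ v x‖ ^ 2) with hHdef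
  have hHc : Continuous H := ENNReal.continuous_ofReal.comp ((hf.norm).pow 2)
  have hHm : Measurable H := hHc.measurable
  -- integrability of the square of the derivative
  have hint : IntegrableOn (fun x => ‖fderiv ℝ v x‖ ^ 2) D := by
    have hcl : IsCompact (closure D) := hbd.isCompact_closure
    exact (((hf.norm).pow 2).continuousOn.integrableOn_compact hcl).mono_set subset_closure
  have hHI : ∫⁻ x in D, H x = ENNReal.ofReal (∫ x in D, ‖fderiv ℝ v x‖ ^ 2) := by
    rw [ofReal_integral_eq_lintegral_ofReal hint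
      (Filter.Eventually.of_forall (fun x => by positivity))]
  have hI0 : 0 ≤ ∫ x in D, ‖fderiv ℝ v x‖ ^ 2 := integral_nonneg (fun x => by positivity)
  -- the estimate for fixed t
  have ht : ∀ t ∈ Ioc (0 : ℝ) 1, ∫⁻ x in D, ∫⁻ y in D, H (t • x + (1 - t) • y) ≤
      2 ^ n * volume D * ∫⁻ x in D, H x := by
    intro t htt
    rcases le_or_gt (1 / 2) t with h | h
    · rw [lintegral_lintegral_swap]
      · calc ∫⁻ y in D, ∫⁻ x in D, H (t • x + (1 - t) • y)
            ≤ ∫⁻ y in D, 2 ^ n * ∫⁻ x in D, H x := by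
              apply setLIntegral_mono' hD
              intro y hy
              exact cua_hom n D hD hconv H hHm t h htt.2 y hy
          _ = 2 ^ n * volume D * ∫⁻ x in D, H x := by
              rw [setLIntegral_const]
              ring
      · apply Measurable.aemeasurable
        apply hHm.comp
        fun_prop
    · calc ∫⁻ x in D, ∫⁻ y in D, H (t • x + (1 - t) • y)
            ≤ ∫⁻ x in D, 2 ^ n * ∫⁻ y in D, H y := by
              apply setLIntegral_mono' hD
              intro x hx
              have := cua_hom n D hD hconv H hHm (1 - t) (by linarith) (by linarith [htt.1]) x hx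
              refine le_trans (le_of_eq ?_) this
              apply lintegral_congr
              intro y
              congr 1
              rw [add_comm]
              congr 2
              ring
          _ = 2 ^ n * volume D * ∫⁻ x in D, H x := by
              rw [setLIntegral_const]
              ring
  -- Tonelli
  have hmeas3 : Measurable (fun p : (E n × ℝ) × E n => H (p.1.2 • p.1.1 + (1 - p.1.2) • p.2)) := by
    apply hHm.comp
    fun_prop
  have hT : ∫⁻ x in D, ∫⁻ y in D, ∫⁻ t in Ioc (0 : ℝ) 1, H (t • x + (1 - t) • y) ≤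
      2 ^ n * volume D * ∫⁻ x in D, H x := by
    have e1 : ∀ x, ∫⁻ y in D, ∫⁻ t in Ioc (0 : ℝ) 1, H (t • x + (1 - t) • y) =
        ∫⁻ t in Ioc (0 : ℝ) 1, ∫⁻ y in D, H (t • x + (1 - t) • y) := by
      intro x
      rw [lintegral_lintegral_swap]
      apply Measurable.aemeasurable
      apply hHm.comp
      fun_prop
    simp only [e1]
    rw [lintegral_lintegral_swap]
    · calc ∫⁻ t in Ioc (0 : ℝ) 1, ∫⁻ x in D, ∫⁻ y in D, H (t • x + (1 - t) • y)
          ≤ ∫⁻ t in Ioc (0 : ℝ) 1, 2 ^ n * volume D * ∫⁻ x in D, H x :=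
            setLIntegral_mono' measurableSet_Ioc ht
        _ = 2 ^ n * volume D * ∫⁻ x in D, H x := by
            rw [setLIntegral_const]
            simp
    · apply Measurable.aemeasurable
      exact hmeas3.lintegral_prod_right'
  have hA : ∫⁻ x in D, ∫⁻ y in D, ENNReal.ofReal ((v x - v y) ^ 2) ≤
      ENNReal.ofReal (2 ^ n * d ^ 2 * volume.real D * ∫ x in D, ‖fderiv ℝ v x‖ ^ 2) := by
    calc ∫⁻ x in D, ∫⁻ y in D, ENNReal.ofReal ((v x - v y) ^ 2)
        ≤ ∫⁻ x in D, ∫⁻ y in D, ENNReal.ofReal (d ^ 2) *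
            ∫⁻ t in Ioc (0 : ℝ) 1, H (t • x + (1 - t) • y) := by
          apply setLIntegral_mono' hD
          intro x hx
          apply setLIntegral_mono' hD
          intro y hy
          exact cua_pt n d v hv x y (hd x hx y hy)
      _ = ENNReal.ofReal (d ^ 2) * ∫⁻ x in D, ∫⁻ y in D,
            ∫⁻ t in Ioc (0 : ℝ) 1, H (t • x + (1 - t) • y) := by
          simp only [lintegral_const_mul' _ _ ENNReal.ofReal_ne_top]
      _ ≤ ENNReal.ofReal (d ^ 2) * (2 ^ n * volume D * ∫⁻ x in D, H x) := by gcongr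
      _ = ENNReal.ofReal (2 ^ n * d ^ 2 * volume.real D * ∫ x in D, ‖fderiv ℝ v x‖ ^ 2) := by
          have e2 : ENNReal.ofReal ((2 : ℝ) ^ n) = 2 ^ n := by
            rw [ENNReal.ofReal_pow (by norm_num), ENNReal.ofReal_ofNat]
          rw [hHI, ENNReal.ofReal_mul (by positivity), ENNReal.ofReal_mul (by positivity),
            ENNReal.ofReal_mul (by positivity), Measure.real, ENNReal.ofReal_toReal hvol, e2]
          ring
  have hR0 : 0 ≤ 2 ^ n * d ^ 2 * volume.real D * ∫ x in D, ‖fderiv ℝ v x‖ ^ 2 := by positivity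
  by_cases hi : Integrable (fun x => ∫ y in D, (v x - v y) ^ 2) (volume.restrict D)
  · have h0 : ∫ x in D, (∫ y in D, (v x - v y) ^ 2) =
        (∫⁻ x in D, ENNReal.ofReal (∫ y in D, (v x - v y) ^ 2)).toReal := by
      rw [integral_eq_lintegral_of_nonneg_ae]
      · exact Filter.Eventually.of_forall (fun x => integral_nonneg (fun y => sq_nonneg _))
      · exact hi.aestronglyMeasurable
    rw [h0]
    apply ENNReal.toReal_le_of_le_ofReal hR0
    refine le_trans ?_ hA
    apply lintegral_mono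
    intro x
    show ENNReal.ofReal (∫ y in D, (v x - v y) ^ 2) ≤ ∫⁻ y in D, ENNReal.ofReal ((v x - v y) ^ 2)
    rw [integral_eq_lintegral_of_nonneg_ae (Filter.Eventually.of_forall (fun y => sq_nonneg _))]
    · exact ENNReal.ofReal_toReal_le
    · exact ((continuous_const.sub hv.continuous).pow 2).aestronglyMeasurable
  · rw [integral_undef hi]
    exact hR0

end Pool.Agent.Helper18.DSH
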